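import Pool.Agent.Helper32_OMP.Stmts

/-!
# Module SHC: the class of the points `(y, w)` with `h(y) w ^ g = 1` depends on one invariant of the
weights only
-/

set_option autoImplicit false
set_option linter.unusedVariables false
set_option linter.unusedSectionVars false

namespace Pool.Agent.Helper32_OMP.H37

open Finset Pool.Agent.Helper6_Mono Pool.Agent.Helper32_OMP

/-- the group generated by two elements with the relation `dh (1, 0) + g (0, 1) = 0` -/
abbrev WW (dh g : ℕ) : Type := (ℤ × ℤ) ⧸ AddSubgroup.zmultiples (((dh : ℤ), (g : ℤ)) : ℤ × ℤ)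

/-- the first generator -/
def wY (dh g : ℕ) : WW dh g := QuotientAddGroup.mk (1, 0)

/-- the second generator -/
def wO (dh g : ℕ) : WW dh g := QuotientAddGroup.mk (0, 1)

theorem wrel (dh g : ℕ) : dh • wY dh g + g • wO dh g = 0 := by
  have h1 : dh • wY dh g + g • wO dh g
      = (QuotientAddGroup.mk (dh • ((1, 0) : ℤ × ℤ) + g • ((0, 1) : ℤ × ℤ)) : WW dh g) := rfl
  rw [h1, QuotientAddGroup.eq_zero_iff]
  have h2 : dh • ((1, 0) : ℤ × ℤ) + g • ((0, 1) : ℤ × ℤ) = ((dh : ℤ), (g : ℤ)) := by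
    simp
  rw [h2]
  exact AddSubgroup.mem_zmultiples _

section bil

variable {A : Type} [AddCommGroup A]

/-- the homomorphism `(x, y) ↦ x a + y b` -/
def bil (a b : A) : ℤ × ℤ →+ A := AddMonoidHom.coprod (zmultiplesHom A a) (zmultiplesHom A b)

theorem bil_apply (a b : A) (z : ℤ × ℤ) : bil a b z = z.1 • a + z.2 • b := rfl

/-- the homomorphism of the quotient -/
def psi (dh g : ℕ) (a b : A) (hw : dh • a + g • b = 0) : WW dh g →+ A :=
  QuotientAddGroup.lift _ (bil a b) (by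
    intro z hz
    obtain ⟨n, rfl⟩ := AddSubgroup.mem_zmultiples_iff.1 hz
    have h1 : bil a b (((dh : ℤ), (g : ℤ)) : ℤ × ℤ) = 0 := by
      rw [bil_apply]
      simpa using hw
    rw [AddMonoidHom.mem_ker, map_zsmul, h1, smul_zero])

theorem psi_mk (dh g : ℕ) (a b : A) (hw : dh • a + g • b = 0) (z : ℤ × ℤ) :
    psi dh g a b hw (QuotientAddGroup.mk z) = z.1 • a + z.2 • b := rfl

theorem psi_wY (dh g : ℕ) (a b : A) (hw : dh • a + g • b = 0) :
    psi dh g a b hw (wY dh g) = a := by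
  rw [wY, psi_mk]; simp

theorem psi_wO (dh g : ℕ) (a b : A) (hw : dh • a + g • b = 0) :
    psi dh g a b hw (wO dh g) = b := by
  rw [wO, psi_mk]; simp

end bil

theorem bezout_nat (A B : ℕ) (h : Nat.Coprime A B) (hB : 0 < B) :
    ∃ s t : ℕ, (B : ℤ) * s - A * t = 1 := by
  rcases Nat.eq_zero_or_pos A with hA | hA
  · subst hA
    rw [Nat.coprime_zero_left] at h
    exact ⟨1, 0, by rw [h]; norm_num⟩
  · have h1 : (A : ℤ) * Nat.gcdA A B + B * Nat.gcdB A B = 1 := by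
      rw [← Nat.gcd_eq_gcd_ab, h]
      norm_num
    set u := Nat.gcdA A B
    set v := Nat.gcdB A B
    have hA' : (1 : ℤ) ≤ A := by exact_mod_cast hA
    have hB' : (1 : ℤ) ≤ B := by exact_mod_cast hB
    have hs : 0 ≤ v + A * (|u| + |v|) := by
      have h2 := neg_abs_le v
      have h3 := abs_nonneg u
      nlinarith [abs_nonneg v]
    have ht : 0 ≤ -u + B * (|u| + |v|) := by
      have h2 := le_abs_self u
      have h3 := abs_nonneg v
      nlinarith [abs_nonneg u]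
    refine ⟨(v + A * (|u| + |v|)).toNat, (-u + B * (|u| + |v|)).toNat, ?_⟩
    rw [Int.toNat_of_nonneg hs, Int.toNat_of_nonneg ht]
    linear_combination h1

section main

variable {k : Type} [Field k] {σ Θ : Type} [Fintype σ] [Fintype Θ]

theorem KKf_FT {W : Type} [AddCommGroup W] (wy w0 : W) (p : σ → k) (Φ : Θ → MvPolynomial σ k)
    (dΦ : Θ → ℕ) (hΦ : ∀ t, (Φ t).IsHomogeneous (dΦ t)) (U : Finset Θ) (h : MvPolynomial σ k)
    (dh : ℕ) (hh : h.IsHomogeneous dh) (g : ℕ) (hw : dh • wy + g • w0 = 0) :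
    FT (KKf W wy w0 p Φ dΦ hΦ U h dh hh g hw).F := by
  classical
  let X : Over k W Empty (fun _ => (0 : W)) :=
    ⟨(GF.pi k (fun _ : σ => wy)).prod (GF.line k w0), fun b => b.elim⟩
  have hX : FT X.F := (FT.pi _).prod (FT.line _)
  let f : ∀ t, NF X.F (dΦ t • wy) := fun t =>
    ⟨fun x => MvPolynomial.aeval x.1 (Φ t), fun φ c x =>
      aeval_tw (hom_of_isHomogeneous (hΦ t) wy) φ c x.1⟩
  have h1 : FT (X.tor f univ U).F := FT.tor hX f univ U
  let fh : NF (X.tor f univ U).F (dh • wy) :=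
    ⟨fun x => MvPolynomial.aeval x.1.1 h, fun φ c x =>
      aeval_tw (hom_of_isHomogeneous hh wy) φ c x.1.1⟩
  let fw : NF (X.tor f univ U).F w0 := ⟨fun x => x.1.2, fun φ c x => rfl⟩
  let F : NF (X.tor f univ U).F 0 := ((fh.mul (fw.pow g)).cast hw).sub (NF.one _)
  have h2 : FT ((X.tor f univ U).zero F).F := FT.zero h1 F
  refine FT.of_equiv (F := (KKf W wy w0 p Φ dΦ hΦ U h dh hh g hw).F)
    (G := ((X.tor f univ U).zero F).F) ⟨fun S _ _ =>
    { toFun := fun x => ⟨⟨x.1, fun i _ => x.2.1 i⟩, ?_⟩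
      invFun := fun x => ⟨x.1.1, fun i => x.1.2 i (mem_univ i), ?_⟩
      left_inv := fun x => rfl
      right_inv := fun x => rfl }, fun φ c x => rfl⟩ h2
  · exact sub_eq_zero.2 x.2.2
  · exact sub_eq_zero.1 x.2

theorem KKf_iso (wy w0 : QZ) (p : σ → k) (Φ : Θ → MvPolynomial σ k)
    (dΦ : Θ → ℕ) (hΦ : ∀ t, (Φ t).IsHomogeneous (dΦ t)) (U : Finset Θ) (h : MvPolynomial σ k)
    (dh : ℕ) (hh : h.IsHomogeneous dh) (g : ℕ) (hw : dh • wy + g • w0 = 0) :
    OIso (KKf QZ wy w0 p Φ dΦ hΦ U h dh hh g hw)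
      ((KKf (WW dh g) (wY dh g) (wO dh g) p Φ dΦ hΦ U h dh hh g (wrel dh g)).mapWt
        (psi dh g wy w0 hw) (fun _ => map_zero _)) := by
  refine ⟨⟨fun S _ _ => Equiv.refl _, fun {S S'} _ _ _ _ φ c x => ?_⟩, fun S _ _ x b => rfl⟩
  refine Subtype.ext (Prod.ext (funext fun l => ?_) ?_)
  · show chr c wy * φ (x.1.1 l) = chr (c.pull (psi dh g wy w0 hw)) (wY dh g) * φ (x.1.1 l)
    rw [chr_pull, psi_wY]
  · show chr c w0 * φ x.1.2 = chr (c.pull (psi dh g wy w0 hw)) (wO dh g) * φ x.1.2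
    rw [chr_pull, psi_wO]

end main

theorem shc : ShcStmt := by
  intro k _ σ Θ _ _ R _ L χ p Φ dΦ hΦ U h dh hh g hg hl
  obtain ⟨l, t, htU, htl⟩ := hl
  set g2 := Nat.gcd dh g with hg2
  have hg2pos : 0 < g2 := Nat.gcd_pos_of_pos_right _ hg
  set A0 := dh / g2 with hA0
  set B0 := g / g2 with hB0
  have hAg : A0 * g2 = dh := Nat.div_mul_cancel (Nat.gcd_dvd_left dh g)
  have hBg : B0 * g2 = g := Nat.div_mul_cancel (Nat.gcd_dvd_right dh g)
  have hco : Nat.Coprime A0 B0 := Nat.coprime_div_gcd_div_gcd hg2pos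
  have hB0pos : 0 < B0 := by
    rcases Nat.eq_zero_or_pos B0 with h0 | h0
    · rw [h0, zero_mul] at hBg
      omega
    · exact h0
  obtain ⟨s, r, hsr⟩ := bezout_nat A0 B0 hco hB0pos
  let Z := KKf (WW dh g) (wY dh g) (wO dh g) p Φ dΦ hΦ U h dh hh g (wrel dh g)
  have hZ : FT Z.F := KKf_FT _ _ _ _ _ _ _ _ _ _ _ _
  have hrel : dh • (B0 : ℤ) + g • (-(A0 : ℤ)) = 0 := by
    have h1 : (A0 : ℤ) * g2 = dh := by exact_mod_cast hAg
    have h2 : (B0 : ℤ) * g2 = g := by exact_mod_cast hBg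
    rw [nsmul_eq_mul, nsmul_eq_mul, ← h1, ← h2]
    ring
  let δ : WW dh g →+ ℤ := psi dh g (B0 : ℤ) (-(A0 : ℤ)) hrel
  let vl : NF Z.F (wY dh g) := ⟨fun x => x.1.1 l, fun φ c x => rfl⟩
  let vw : NF Z.F (wO dh g) := ⟨fun x => x.1.2, fun φ c x => rfl⟩
  let v : NF Z.F (s • wY dh g + r • wO dh g) := NF.mul (NF.pow vl s) (NF.pow vw r)
  have hv : ∀ (S : Type) [CommRing S] [Algebra k S] (x : Z.F.obj S), IsUnit (v.fn x) := by
    intro S _ _ x
    have h1 : IsUnit (x.1.1 l) := by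
      have h2 := (x.2.1 t).1 htU
      rwa [htl, MvPolynomial.aeval_X] at h2
    have h2 : IsUnit x.1.2 := by
      have h3 := x.2.2
      have h4 : IsUnit (x.1.2 ^ g) := IsUnit.of_mul_eq_one_right _ h3
      exact (isUnit_pow_iff hg.ne').1 h4
    exact (h1.pow s).mul (h2.pow r)
  have hδv : δ (s • wY dh g + r • wO dh g) = 1 := by
    show psi dh g (B0 : ℤ) (-(A0 : ℤ)) hrel (s • wY dh g + r • wO dh g) = 1
    rw [map_add, map_nsmul, map_nsmul, psi_wY, psi_wO, nsmul_eq_mul, nsmul_eq_mul]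
    linear_combination hsr
  have key : ∀ (wy w0 wy' w0' : QZ) (hw : dh • wy + g • w0 = 0) (hw' : dh • wy' + g • w0' = 0),
      A0 • wy + B0 • w0 = A0 • wy' + B0 • w0' →
      χ.χ (KKf QZ wy w0 p Φ dΦ hΦ U h dh hh g hw)
        = χ.χ (KKf QZ wy' w0' p Φ dΦ hΦ U h dh hh g hw') := by
    intro wy w0 wy' w0' hw hw' he
    rw [χ.iso (KKf_FT _ _ _ _ _ _ _ _ _ _ _ _) (KKf_iso wy w0 p Φ dΦ hΦ U h dh hh g hw),
      χ.iso (KKf_FT _ _ _ _ _ _ _ _ _ _ _ _) (KKf_iso wy' w0' p Φ dΦ hΦ U h dh hh g hw')]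
    have hbz : (A0 : ℤ) * Nat.gcdA A0 B0 + B0 * Nat.gcdB A0 B0 = 1 := by
      rw [← Nat.gcd_eq_gcd_ab, hco]
      norm_num
    set u0 := Nat.gcdA A0 B0
    set v0 := Nat.gcdB A0 B0
    have hab : (A0 : ℤ) • (wy' - wy) + (B0 : ℤ) • (w0' - w0) = 0 := by
      rw [smul_sub, smul_sub, natCast_zsmul, natCast_zsmul, natCast_zsmul, natCast_zsmul]
      rw [sub_add_sub_comm, he, sub_self]
    let q : QZ := v0 • (wy' - wy) - u0 • (w0' - w0)
    have hq1 : wy' - wy = (B0 : ℤ) • q := by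
      have h1 : (B0 : ℤ) • (w0' - w0) = -((A0 : ℤ) • (wy' - wy)) := by
        rw [eq_neg_iff_add_eq_zero, add_comm]; exact hab
      show wy' - wy = (B0 : ℤ) • (v0 • (wy' - wy) - u0 • (w0' - w0))
      rw [smul_sub, smul_comm (B0 : ℤ) u0, h1, smul_neg, sub_neg_eq_add, smul_smul, smul_smul,
        ← add_smul]
      rw [show (B0 : ℤ) * v0 + u0 * A0 = 1 by linear_combination hbz, one_smul]
    have hq2 : w0' - w0 = (-(A0 : ℤ)) • q := by
      have h1 : (A0 : ℤ) • (wy' - wy) = -((B0 : ℤ) • (w0' - w0)) := by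
        rw [eq_neg_iff_add_eq_zero]; exact hab
      show w0' - w0 = (-(A0 : ℤ)) • (v0 • (wy' - wy) - u0 • (w0' - w0))
      rw [neg_smul, smul_sub, smul_comm (A0 : ℤ) v0, h1, smul_neg, smul_smul, smul_smul,
        neg_sub, sub_neg_eq_add, ← add_smul]
      rw [show (A0 : ℤ) * u0 + v0 * B0 = 1 by linear_combination hbz, one_smul]
    refine SInv.shift χ Z hZ δ v hv hδv (fun b => map_zero _) _ _ q ?_ _ _
    intro w
    induction w using QuotientAddGroup.induction_on with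
    | H z =>
      show psi dh g wy' w0' hw' (QuotientAddGroup.mk z)
        = psi dh g wy w0 hw (QuotientAddGroup.mk z)
          + (psi dh g (B0 : ℤ) (-(A0 : ℤ)) hrel (QuotientAddGroup.mk z)) • q
      rw [psi_mk, psi_mk, psi_mk]
      rw [show wy' = wy + (B0 : ℤ) • q by rw [← hq1]; abel,
        show w0' = w0 + (-(A0 : ℤ)) • q by rw [← hq2]; abel]
      rw [smul_add, smul_add, smul_smul, smul_smul, smul_eq_mul, smul_eq_mul, add_smul]
      abel
  by_cases hex : ∃ (wy w0 : QZ) (hw : dh • wy + g • w0 = 0),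
      A0 • wy + B0 • w0 = (((1 : ℚ) / (g2 : ℚ) : ℚ) : QZ)
  · obtain ⟨wy, w0, hw, he⟩ := hex
    refine ⟨χ.χ (KKf QZ wy w0 p Φ dΦ hΦ U h dh hh g hw), fun wy' w0' hw' he' => ?_⟩
    exact key wy' w0' wy w0 hw' hw (he'.trans he.symm)
  · exact ⟨0, fun wy w0 hw he => absurd ⟨wy, w0, hw, he⟩ hex⟩

end Pool.Agent.Helper32_OMP.H37
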