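import Pool.Agent.Helper32_OMP.Stmts

/-!
# Module TOR: the points `(y, u)` with `h(y) ∏ u_i ^ a_i = 1`, reduction to one coordinate
-/

set_option autoImplicit false
set_option linter.unusedVariables false
set_option linter.unusedSectionVars false

namespace Pool.Agent.Helper32_OMP.H37

open Finset Pool.Agent.Helper6_Mono Pool.Agent.Helper32_OMP

/-! ### Monomials -/

section mono

variable {G : Type} [CommGroup G]

theorem add1 {M : Type} [AddCommGroup M] (v z : M) (r s : ℤ) (A B : ℕ)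
    (h : r * A + s * B = 1) :
    A • (r • v + (-(B : ℤ)) • z) + B • (s • v + (A : ℤ) • z) = v := by
  calc _ = (r * A + s * B : ℤ) • v := by module
    _ = v := by rw [h, one_smul]

theorem add2 {M : Type} [AddCommGroup M] (v z : M) (r s : ℤ) (A B : ℕ)
    (h : r * A + s * B = 1) :
    (-s) • (r • v + (-(B : ℤ)) • z) + r • (s • v + (A : ℤ) • z) = z := by
  calc _ = (r * A + s * B : ℤ) • z := by module
    _ = z := by rw [h, one_smul]

theorem add3 {M : Type} [AddCommGroup M] (w u : M) (r s : ℤ) (A B : ℕ)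
    (h : r * A + s * B = 1) :
    r • (A • w + B • u) + (-(B : ℤ)) • ((-s) • w + r • u) = w := by
  calc _ = (r * A + s * B : ℤ) • w := by module
    _ = w := by rw [h, one_smul]

theorem add4 {M : Type} [AddCommGroup M] (w u : M) (r s : ℤ) (A B : ℕ)
    (h : r * A + s * B = 1) :
    s • (A • w + B • u) + (A : ℤ) • ((-s) • w + r • u) = u := by
  calc _ = (r * A + s * B : ℤ) • u := by module
    _ = u := by rw [h, one_smul]

theorem mono1 (v z : G) (r s : ℤ) (A B : ℕ) (h : r * A + s * B = 1) :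
    (v ^ r * z ^ (-(B : ℤ))) ^ A * (v ^ s * z ^ (A : ℤ)) ^ B = v :=
  add1 (M := Additive G) v z r s A B h

theorem mono2 (v z : G) (r s : ℤ) (A B : ℕ) (h : r * A + s * B = 1) :
    (v ^ r * z ^ (-(B : ℤ))) ^ (-s) * (v ^ s * z ^ (A : ℤ)) ^ r = z :=
  add2 (M := Additive G) v z r s A B h

theorem mono3 (w u : G) (r s : ℤ) (A B : ℕ) (h : r * A + s * B = 1) :
    (w ^ A * u ^ B) ^ r * (w ^ (-s) * u ^ r) ^ (-(B : ℤ)) = w :=
  add3 (M := Additive G) w u r s A B h

theorem mono4 (w u : G) (r s : ℤ) (A B : ℕ) (h : r * A + s * B = 1) :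
    (w ^ A * u ^ B) ^ s * (w ^ (-s) * u ^ r) ^ (A : ℤ) = u :=
  add4 (M := Additive G) w u r s A B h

end mono

section general

variable {k : Type} [Field k] {W : Type} [AddCommGroup W] {β : Type} {wβ : β → W}

theorem TT_FT {Y : Over k W β wβ} (hY : FT Y.F) {wh : W} (h : NF Y.F wh) {I : Type} [Fintype I]
    (a : I → ℕ) (wt : I → W) (hw : wh + ∑ i, a i • wt i = 0) : FT (TT Y h a wt hw).F := by
  let m : NF (Y.F.prod (GF.pi k wt)) 0 :=
    ⟨fun x => h.fn x.1 * ∏ i, x.2 i ^ a i - 1, fun {S S'} _ _ _ _ φ c x => by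
      have h2 : ∀ i : I, (chr c (wt i) * φ (x.2 i)) ^ a i
          = chr c (a i • wt i) * φ (x.2 i ^ a i) := by
        intro i
        rw [mul_pow, chr_nsmul, map_pow]
      have h3 : chr c wh * chr c (∑ i, a i • wt i) = 1 := by rw [← chr_add, hw, chr_zero]
      show h.fn (Y.F.tw φ c x.1) * ∏ i, (chr c (wt i) * φ (x.2 i)) ^ a i - 1
        = chr c 0 * φ (h.fn x.1 * ∏ i, x.2 i ^ a i - 1)
      rw [h.fn_tw, Finset.prod_congr rfl fun i _ => h2 i, Finset.prod_mul_distrib, ← chr_sum,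
        ← map_prod, chr_zero, one_mul, map_sub, map_mul, map_one]
      linear_combination (φ (h.fn x.1) * φ (∏ i, x.2 i ^ a i)) * h3⟩
  have hT : Finite I := Finite.of_fintype I
  exact FT.closed (hY.prod (FT.pi wt)) (fun {S S'} _ _ _ _ φ c x hx => by
      have h1 := m.fn_tw φ c x
      have h2 : m.fn x = 0 := sub_eq_zero.2 hx
      rw [h2, map_zero, mul_zero] at h1
      exact sub_eq_zero.1 h1) (A := Unit) (w := fun _ => 0) (fun _ => m)
    (fun S _ _ x => ⟨fun hx _ => sub_eq_zero.2 hx, fun hx => sub_eq_zero.1 (hx ())⟩)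

/-- the function `h(y) w ^ a` -/
@[reducible] def hmul {Y : Over k W β wβ} {wh : W} (h : NF Y.F wh) (w1 : W) (a : ℕ) :
    NF (Y.times (GF.line k w1)).F (wh + a • w1) :=
  ⟨fun x => h.fn x.1 * x.2 ^ a, fun φ c x => by
    show h.fn (Y.F.tw φ c x.1) * (chr c w1 * φ x.2) ^ a = chr c (wh + a • w1) * φ (h.fn x.1 * x.2 ^ a)
    rw [h.fn_tw, chr_add, chr_nsmul, map_mul, map_pow]
    ring⟩

theorem TT_option {Y : Over k W β wβ} {wh : W} (h : NF Y.F wh) {I : Type} [Fintype I]
    (a : Option I → ℕ) (wt : Option I → W) (hw : wh + ∑ i, a i • wt i = 0)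
    (hw' : (wh + a none • wt none) + ∑ i : I, a (some i) • wt (some i) = 0) :
    OIso (TT Y h a wt hw)
      (TT (Y.times (GF.line k (wt none))) (hmul h (wt none) (a none)) (fun i : I => a (some i))
        (fun i => wt (some i)) hw') := by
  refine OIso.mk' (fun S _ _ x => ⟨((x.1.1, x.1.2 none), fun i => x.1.2 (some i)), ?_⟩)
    (fun S _ _ y => ⟨(y.1.1.1, fun o => o.elim y.1.1.2 y.1.2), ?_⟩) ?_ ?_ ?_ ?_
  · have h1 : h.fn x.1.1 * ∏ i, x.1.2 i ^ a i = 1 := x.2
    rw [Fintype.prod_option] at h1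
    show (h.fn x.1.1 * x.1.2 none ^ a none) * ∏ i : I, x.1.2 (some i) ^ a (some i) = 1
    rw [mul_assoc]
    exact h1
  · show h.fn y.1.1.1 * ∏ o : Option I, (o.elim y.1.1.2 y.1.2) ^ a o = 1
    rw [Fintype.prod_option, ← mul_assoc]
    exact y.2
  · intro S _ _ x
    refine Subtype.ext (Prod.ext rfl (funext fun o => ?_))
    cases o <;> rfl
  · intro S _ _ y
    rfl
  · intro S S' _ _ _ _ φ c x
    rfl
  · intro S _ _ x b
    rfl

theorem TT_equiv {Y : Over k W β wβ} {wh : W} (h : NF Y.F wh) {I J : Type} [Fintype I] [Fintype J]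
    (e : I ≃ J) (a : J → ℕ) (wt : J → W) (hw : wh + ∑ i, a i • wt i = 0)
    (hw' : wh + ∑ i, a (e i) • wt (e i) = 0) :
    OIso (TT Y h a wt hw) (TT Y h (fun i => a (e i)) (fun i => wt (e i)) hw') := by
  refine OIso.mk' (fun S _ _ x => ⟨(x.1.1, fun i => x.1.2 (e i)), ?_⟩)
    (fun S _ _ y => ⟨(y.1.1, fun j => y.1.2 (e.symm j)), ?_⟩) ?_ ?_ ?_ ?_
  · have h1 : h.fn x.1.1 * ∏ i, x.1.2 i ^ a i = 1 := x.2
    rw [← Equiv.prod_comp e] at h1
    exact h1
  · show h.fn y.1.1 * ∏ j : J, (y.1.2 (e.symm j)) ^ a j = 1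
    rw [← Equiv.prod_comp e]
    simp only [Equiv.symm_apply_apply]
    exact y.2
  · intro S _ _ x
    refine Subtype.ext (Prod.ext rfl (funext fun o => ?_))
    show x.1.2 (e (e.symm o)) = x.1.2 o
    rw [Equiv.apply_symm_apply]
  · intro S _ _ y
    refine Subtype.ext (Prod.ext rfl (funext fun o => ?_))
    show y.1.2 (e.symm (e o)) = y.1.2 o
    rw [Equiv.symm_apply_apply]
  · intro S S' _ _ _ _ φ c x
    rfl
  · intro S _ _ x b
    rfl

theorem gcdI_equiv {I J : Type} [Fintype I] [Fintype J] (e : I ≃ J) (a : J → ℕ) :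
    gcdI (fun i => a (e i)) = gcdI a := by
  apply Nat.dvd_antisymm
  · refine Finset.dvd_gcd fun j _ => ?_
    have := Finset.gcd_dvd (s := univ) (f := fun i => a (e i)) (mem_univ (e.symm j))
    rwa [Equiv.apply_symm_apply] at this
  · exact Finset.dvd_gcd fun i _ => Finset.gcd_dvd (mem_univ (e i))

theorem gcdI_option {I : Type} [Fintype I] (a : Option I → ℕ) :
    gcdI a = Nat.gcd (a none) (gcdI fun i : I => a (some i)) := by
  apply Nat.dvd_antisymm
  · exact Nat.dvd_gcd (Finset.gcd_dvd (mem_univ _)) (Finset.dvd_gcd fun i _ => Finset.gcd_dvd (mem_univ _))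
  · refine Finset.dvd_gcd fun o _ => ?_
    cases o with
    | none => exact Nat.gcd_dvd_left _ _
    | some i =>
      have h1 : gcdI (fun i : I => a (some i)) ∣ a (some i) :=
        Finset.gcd_dvd (s := univ) (f := fun i : I => a (some i)) (mem_univ i)
      exact dvd_trans (Nat.gcd_dvd_right _ _) h1

/-- unit coordinates -/
theorem TT_unit1 {Y : Over k W β wβ} {wh : W} (h : NF Y.F wh) {w1 w2 : W} {a b : ℕ} (ha : 0 < a)
    (hb : 0 < b) (hw : (wh + a • w1) + ∑ i : Unit, b • w2 = 0) {S : Type} [CommRing S] [Algebra k S]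
    (x : (TT (Y.times (GF.line k w1)) (hmul h w1 a) (fun _ : Unit => b) (fun _ => w2) hw).F.obj S) :
    IsUnit x.1.1.2 ∧ IsUnit (x.1.2 ()) := by
  have h1 : (h.fn x.1.1.1 * x.1.1.2 ^ a) * ∏ i : Unit, x.1.2 i ^ b = 1 := x.2
  rw [Fintype.prod_unique] at h1
  constructor
  · have h2 : IsUnit (x.1.1.2 ^ a) :=
      IsUnit.of_mul_eq_one (h.fn x.1.1.1 * x.1.2 default ^ b) (by rw [← h1]; ring)
    exact (isUnit_pow_iff ha.ne').1 h2
  · have h2 : IsUnit (x.1.2 default ^ b) :=
      IsUnit.of_mul_eq_one (h.fn x.1.1.1 * x.1.1.2 ^ a) (by rw [← h1]; ring)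
    exact (isUnit_pow_iff hb.ne').1 h2

theorem TT_unit2 {Y : Over k W β wβ} {wh : W} (h : NF Y.F wh) {w2 : W} {b : ℕ}
    (hb : 0 < b) (hw : wh + ∑ i : Unit, b • w2 = 0) {S : Type} [CommRing S] [Algebra k S]
    (x : (TT Y h (fun _ : Unit => b) (fun _ => w2) hw).F.obj S) :
    IsUnit (x.1.2 ()) := by
  have h1 : h.fn x.1.1 * ∏ i : Unit, x.1.2 i ^ b = 1 := x.2
  rw [Fintype.prod_unique] at h1
  have h2 : IsUnit (x.1.2 default ^ b) :=
    IsUnit.of_mul_eq_one (h.fn x.1.1) (by rw [← h1]; ring)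
  exact (isUnit_pow_iff hb.ne').1 h2

variable {Y : Over k W β wβ} {wh : W} (h : NF Y.F wh) {w1 w2 : W} {g A B : ℕ} (hg : 0 < g)
    (hA : 0 < A) (hB : 0 < B) (r s : ℤ)
    (hw : (wh + (A * g) • w1) + ∑ i : Unit, (B * g) • w2 = 0)
    (hw' : wh + ∑ i : Unit, g • (A • w1 + B • w2) = 0)

/-- the unit `w` -/
noncomputable def uw {S : Type} [CommRing S] [Algebra k S]
    (x : (TT (Y.times (GF.line k w1)) (hmul h w1 (A * g)) (fun _ : Unit => B * g)
      (fun _ => w2) hw).F.obj S) : Sˣ :=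
  (TT_unit1 h (Nat.mul_pos hA hg) (Nat.mul_pos hB hg) hw x).1.unit

/-- the unit `u` -/
noncomputable def uu {S : Type} [CommRing S] [Algebra k S]
    (x : (TT (Y.times (GF.line k w1)) (hmul h w1 (A * g)) (fun _ : Unit => B * g)
      (fun _ => w2) hw).F.obj S) : Sˣ :=
  (TT_unit1 h (Nat.mul_pos hA hg) (Nat.mul_pos hB hg) hw x).2.unit

/-- the unit `v` -/
noncomputable def uv {w : W} (hw' : wh + ∑ i : Unit, g • w = 0) {S : Type} [CommRing S] [Algebra k S]
    (x : (TT Y h (fun _ : Unit => g) (fun _ => w) hw').F.obj S) : Sˣ :=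
  (TT_unit2 h hg hw' x).unit

include hg in
theorem uw_val {S : Type} [CommRing S] [Algebra k S]
    (x : (TT (Y.times (GF.line k w1)) (hmul h w1 (A * g)) (fun _ : Unit => B * g)
      (fun _ => w2) hw).F.obj S) : ((uw h hg hA hB hw x : Sˣ) : S) = x.1.1.2 := rfl

include hg in
theorem uu_val {S : Type} [CommRing S] [Algebra k S]
    (x : (TT (Y.times (GF.line k w1)) (hmul h w1 (A * g)) (fun _ : Unit => B * g)
      (fun _ => w2) hw).F.obj S) : ((uu h hg hA hB hw x : Sˣ) : S) = x.1.2 () := rfl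

theorem uv_val {w : W} (hw' : wh + ∑ i : Unit, g • w = 0) {S : Type} [CommRing S] [Algebra k S]
    (x : (TT Y h (fun _ : Unit => g) (fun _ => w) hw').F.obj S) :
    ((uv h hg hw' x : Sˣ) : S) = x.1.2 () := rfl

/-- the change of coordinates -/
noncomputable def fwd {S : Type} [CommRing S] [Algebra k S]
    (x : (TT (Y.times (GF.line k w1)) (hmul h w1 (A * g)) (fun _ : Unit => B * g)
      (fun _ => w2) hw).F.obj S) :
    ((TT Y h (fun _ : Unit => g) (fun _ => A • w1 + B • w2) hw').times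
        (GF.gm k ((-s) • w1 + r • w2))).F.obj S :=
  (⟨(x.1.1.1, fun _ => ((uw h hg hA hB hw x ^ A * uu h hg hA hB hw x ^ B : Sˣ) : S)), by
    have h1 : (h.fn x.1.1.1 * x.1.1.2 ^ (A * g)) * ∏ i : Unit, x.1.2 i ^ (B * g) = 1 := x.2
    rw [Fintype.prod_unique] at h1
    show h.fn x.1.1.1 * ∏ i : Unit,
      ((uw h hg hA hB hw x ^ A * uu h hg hA hB hw x ^ B : Sˣ) : S) ^ g = 1
    rw [Fintype.prod_unique, ← h1, Units.val_mul, Units.val_pow_eq_pow_val,
      Units.val_pow_eq_pow_val, uw_val, uu_val, mul_pow, ← pow_mul, ← pow_mul, mul_assoc]⟩,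
    ⟨((uw h hg hA hB hw x ^ (-s) * uu h hg hA hB hw x ^ r : Sˣ) : S), Units.isUnit _⟩)

/-- the inverse change of coordinates -/
noncomputable def bwd (hrs : r * A + s * B = 1) {S : Type} [CommRing S] [Algebra k S]
    (q : ((TT Y h (fun _ : Unit => g) (fun _ => A • w1 + B • w2) hw').times
        (GF.gm k ((-s) • w1 + r • w2))).F.obj S) :
    (TT (Y.times (GF.line k w1)) (hmul h w1 (A * g)) (fun _ : Unit => B * g)
      (fun _ => w2) hw).F.obj S :=
  ⟨((q.1.1.1, ((uv h hg hw' q.1 ^ r * q.2.2.unit ^ (-(B : ℤ)) : Sˣ) : S)),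
    fun _ => ((uv h hg hw' q.1 ^ s * q.2.2.unit ^ (A : ℤ) : Sˣ) : S)), by
    have h1 : h.fn q.1.1.1 * ∏ i : Unit, q.1.1.2 i ^ g = 1 := q.1.2
    rw [Fintype.prod_unique] at h1
    show (h.fn q.1.1.1 * ((uv h hg hw' q.1 ^ r * q.2.2.unit ^ (-(B : ℤ)) : Sˣ) : S) ^ (A * g))
      * ∏ i : Unit, ((uv h hg hw' q.1 ^ s * q.2.2.unit ^ (A : ℤ) : Sˣ) : S) ^ (B * g) = 1
    rw [Fintype.prod_unique, mul_assoc, ← Units.val_pow_eq_pow_val, ← Units.val_pow_eq_pow_val,
      ← Units.val_mul, pow_mul, pow_mul, ← mul_pow, mono1 _ _ r s A B hrs,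
      Units.val_pow_eq_pow_val, uv_val]
    exact h1⟩

theorem bwd_fwd (hrs : r * A + s * B = 1) {S : Type} [CommRing S] [Algebra k S]
    (x : (TT (Y.times (GF.line k w1)) (hmul h w1 (A * g)) (fun _ : Unit => B * g)
      (fun _ => w2) hw).F.obj S) :
    bwd h hg r s hw hw' hrs (fwd h hg hA hB r s hw hw' x) = x := by
  have e1 : uv h hg hw' (fwd h hg hA hB r s hw hw' x).1
      = uw h hg hA hB hw x ^ A * uu h hg hA hB hw x ^ B := Units.ext rfl
  have e2 : (fwd h hg hA hB r s hw hw' x).2.2.unit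
      = uw h hg hA hB hw x ^ (-s) * uu h hg hA hB hw x ^ r := Units.ext rfl
  refine Subtype.ext (Prod.ext (Prod.ext ?_ ?_) (funext fun i => ?_))
  · rfl
  · show ((uv h hg hw' (fwd h hg hA hB r s hw hw' x).1 ^ r
      * (fwd h hg hA hB r s hw hw' x).2.2.unit ^ (-(B : ℤ)) : Sˣ) : S) = x.1.1.2
    rw [e1, e2, mono3 _ _ r s A B hrs, uw_val]
  · show ((uv h hg hw' (fwd h hg hA hB r s hw hw' x).1 ^ s
      * (fwd h hg hA hB r s hw hw' x).2.2.unit ^ (A : ℤ) : Sˣ) : S) = x.1.2 ()
    rw [e1, e2, mono4 _ _ r s A B hrs, uu_val]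

theorem fwd_bwd (hrs : r * A + s * B = 1) {S : Type} [CommRing S] [Algebra k S]
    (q : ((TT Y h (fun _ : Unit => g) (fun _ => A • w1 + B • w2) hw').times
        (GF.gm k ((-s) • w1 + r • w2))).F.obj S) :
    fwd h hg hA hB r s hw hw' (bwd h hg r s hw hw' hrs q) = q := by
  have e1 : uw h hg hA hB hw (bwd h hg r s hw hw' hrs q)
      = uv h hg hw' q.1 ^ r * q.2.2.unit ^ (-(B : ℤ)) := Units.ext rfl
  have e2 : uu h hg hA hB hw (bwd h hg r s hw hw' hrs q)
      = uv h hg hw' q.1 ^ s * q.2.2.unit ^ (A : ℤ) := Units.ext rfl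
  refine Prod.ext (Subtype.ext (Prod.ext ?_ (funext fun i => ?_))) (Subtype.ext ?_)
  · rfl
  · show ((uw h hg hA hB hw (bwd h hg r s hw hw' hrs q) ^ A
      * uu h hg hA hB hw (bwd h hg r s hw hw' hrs q) ^ B : Sˣ) : S) = q.1.1.2 ()
    rw [e1, e2, mono1 _ _ r s A B hrs, uv_val]
  · show ((uw h hg hA hB hw (bwd h hg r s hw hw' hrs q) ^ (-s)
      * uu h hg hA hB hw (bwd h hg r s hw hw' hrs q) ^ r : Sˣ) : S) = q.2.1
    rw [e1, e2, mono2 _ _ r s A B hrs]
    rfl

theorem fwd_nat {S S' : Type} [CommRing S] [Algebra k S] [CommRing S'] [Algebra k S']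
    (φ : S →ₐ[k] S') (c : Chr W S')
    (x : (TT (Y.times (GF.line k w1)) (hmul h w1 (A * g)) (fun _ : Unit => B * g)
      (fun _ => w2) hw).F.obj S) :
    fwd h hg hA hB r s hw hw' ((TT (Y.times (GF.line k w1)) (hmul h w1 (A * g))
      (fun _ : Unit => B * g) (fun _ => w2) hw).F.tw φ c x)
      = ((TT Y h (fun _ : Unit => g) (fun _ => A • w1 + B • w2) hw').times
        (GF.gm k ((-s) • w1 + r • w2))).F.tw φ c (fwd h hg hA hB r s hw hw' x) := by
  have e1 : uw h hg hA hB hw ((TT (Y.times (GF.line k w1)) (hmul h w1 (A * g))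
      (fun _ : Unit => B * g) (fun _ => w2) hw).F.tw φ c x)
      = c (Multiplicative.ofAdd w1) * Units.map (φ : S →* S') (uw h hg hA hB hw x) :=
    Units.ext rfl
  have e2 : uu h hg hA hB hw ((TT (Y.times (GF.line k w1)) (hmul h w1 (A * g))
      (fun _ : Unit => B * g) (fun _ => w2) hw).F.tw φ c x)
      = c (Multiplicative.ofAdd w2) * Units.map (φ : S →* S') (uu h hg hA hB hw x) :=
    Units.ext rfl
  refine Prod.ext (Subtype.ext (Prod.ext ?_ (funext fun i => ?_))) (Subtype.ext ?_)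
  · rfl
  · show ((uw h hg hA hB hw ((TT (Y.times (GF.line k w1)) (hmul h w1 (A * g))
      (fun _ : Unit => B * g) (fun _ => w2) hw).F.tw φ c x) ^ A
      * uu h hg hA hB hw ((TT (Y.times (GF.line k w1)) (hmul h w1 (A * g))
      (fun _ : Unit => B * g) (fun _ => w2) hw).F.tw φ c x) ^ B : S'ˣ) : S')
      = chr c (A • w1 + B • w2) * φ ((uw h hg hA hB hw x ^ A * uu h hg hA hB hw x ^ B : Sˣ) : S)
    rw [e1, e2]
    have e3 : (c (Multiplicative.ofAdd w1) * Units.map (φ : S →* S') (uw h hg hA hB hw x)) ^ A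
        * (c (Multiplicative.ofAdd w2) * Units.map (φ : S →* S') (uu h hg hA hB hw x)) ^ B
        = c (Multiplicative.ofAdd (A • w1 + B • w2))
          * Units.map (φ : S →* S') (uw h hg hA hB hw x ^ A * uu h hg hA hB hw x ^ B) := by
      rw [ofAdd_add, ofAdd_nsmul, ofAdd_nsmul, map_mul, map_pow, map_pow, map_mul, map_pow,
        map_pow, mul_pow, mul_pow, mul_mul_mul_comm]
    rw [e3]
    rfl
  · show ((uw h hg hA hB hw ((TT (Y.times (GF.line k w1)) (hmul h w1 (A * g))
      (fun _ : Unit => B * g) (fun _ => w2) hw).F.tw φ c x) ^ (-s)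
      * uu h hg hA hB hw ((TT (Y.times (GF.line k w1)) (hmul h w1 (A * g))
      (fun _ : Unit => B * g) (fun _ => w2) hw).F.tw φ c x) ^ r : S'ˣ) : S')
      = chr c ((-s) • w1 + r • w2)
        * φ ((uw h hg hA hB hw x ^ (-s) * uu h hg hA hB hw x ^ r : Sˣ) : S)
    rw [e1, e2]
    have e3 : (c (Multiplicative.ofAdd w1) * Units.map (φ : S →* S') (uw h hg hA hB hw x)) ^ (-s)
        * (c (Multiplicative.ofAdd w2) * Units.map (φ : S →* S') (uu h hg hA hB hw x)) ^ r
        = c (Multiplicative.ofAdd ((-s) • w1 + r • w2))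
          * Units.map (φ : S →* S') (uw h hg hA hB hw x ^ (-s) * uu h hg hA hB hw x ^ r) := by
      rw [ofAdd_add, ofAdd_zsmul, ofAdd_zsmul, map_mul, map_zpow, map_zpow, map_mul, map_zpow,
        map_zpow, mul_zpow, mul_zpow, mul_mul_mul_comm]
    rw [e3]
    rfl

include hg hA hB in
theorem two_iso (hrs : r * A + s * B = 1) :
    OIso (TT (Y.times (GF.line k w1)) (hmul h w1 (A * g)) (fun _ : Unit => B * g) (fun _ => w2) hw)
      ((TT Y h (fun _ : Unit => g) (fun _ => A • w1 + B • w2) hw').times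
        (GF.gm k ((-s) • w1 + r • w2))) :=
  OIso.mk' (fun S _ _ x => fwd h hg hA hB r s hw hw' x)
    (fun S _ _ q => bwd h hg r s hw hw' hrs q)
    (fun S _ _ x => bwd_fwd h hg hA hB r s hw hw' hrs x)
    (fun S _ _ q => fwd_bwd h hg hA hB r s hw hw' hrs q)
    (fun φ c x => fwd_nat h hg hA hB r s hw hw' φ c x)
    (fun S _ _ x b => rfl)

end general

section final

variable {k : Type} [Field k] {β : Type} {wβ : β → QZ} {R : Type*} [CommRing R] {L : Rˣ}

theorem TT_congr (χ : SInv k wβ L) {Y : Over k QZ β wβ} {wh : QZ} (h : NF Y.F wh) {I : Type}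
    [Fintype I] {a a' : I → ℕ} {wt wt' : I → QZ} (ha : a = a') (hwt : wt = wt')
    (hw : wh + ∑ i, a i • wt i = 0) (hw' : wh + ∑ i, a' i • wt' i = 0) :
    χ.χ (TT Y h a wt hw) = χ.χ (TT Y h a' wt' hw') := by
  subst ha
  subst hwt
  rfl

theorem two (χ : SInv k wβ L) {Y : Over k QZ β wβ} (hY : FT Y.F) {wh : QZ} (h : NF Y.F wh)
    {w1 w2 : QZ} {a b A B g : ℕ} (ha : a = A * g) (hb : b = B * g) (hA : 0 < A) (hB : 0 < B)
    (hg : 0 < g) (hco : Nat.Coprime A B)
    (hw : (wh + a • w1) + ∑ i : Unit, b • w2 = 0)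
    (hw' : wh + ∑ i : Unit, g • (A • w1 + B • w2) = 0) :
    χ.χ (TT (Y.times (GF.line k w1)) (hmul h w1 a) (fun _ : Unit => b) (fun _ => w2) hw)
      = ((L : R) - 1) * χ.χ (TT Y h (fun _ : Unit => g) (fun _ => A • w1 + B • w2) hw') := by
  subst ha
  subst hb
  have hbz : (A : ℤ) * Nat.gcdA A B + B * Nat.gcdB A B = 1 := by
    rw [← Nat.gcd_eq_gcd_ab, hco]
    norm_num
  have hrs : Nat.gcdA A B * (A : ℤ) + Nat.gcdB A B * B = 1 := by linear_combination hbz
  rw [χ.iso (TT_FT (hY.prod (FT.line _)) _ _ _ _)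
    (two_iso h hg hA hB (Nat.gcdA A B) (Nat.gcdB A B) hw hw' hrs), χ.times_gm (TT_FT hY _ _ _ _)]

theorem gcdI_pos {I : Type} [Fintype I] [Nonempty I] (a : I → ℕ) (ha : ∀ i, 0 < a i) :
    0 < gcdI a := by
  obtain ⟨i⟩ := ‹Nonempty I›
  exact Nat.pos_of_dvd_of_pos (Finset.gcd_dvd (mem_univ i)) (ha i)

theorem tor_aux (χ : SInv k wβ L) (I : Type) [Fintype I] : Nonempty I →
    ∀ (Y : Over k QZ β wβ), FT Y.F → ∀ (wh : QZ) (h : NF Y.F wh)
    (a : I → ℕ), (∀ i, 0 < a i) → ∀ (wt : I → QZ)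
    (hw : wh + ∑ i, a i • wt i = 0),
    χ.χ (TT Y h a wt hw) = ((L : R) - 1) ^ (Fintype.card I - 1) *
      χ.χ (TT Y h (fun _ : Unit => gcdI a) (fun _ => ∑ i, (a i / gcdI a) • wt i)
        (gcdI_sum a wt hw)) := by
  refine Fintype.induction_empty_option (P := fun (I : Type) (_ : Fintype I) => Nonempty I →
    ∀ (Y : Over k QZ β wβ), FT Y.F → ∀ (wh : QZ) (h : NF Y.F wh)
    (a : I → ℕ), (∀ i, 0 < a i) → ∀ (wt : I → QZ)
    (hw : wh + ∑ i, a i • wt i = 0),
    χ.χ (TT Y h a wt hw) = ((L : R) - 1) ^ (Fintype.card I - 1) *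
      χ.χ (TT Y h (fun _ : Unit => gcdI a) (fun _ => ∑ i, (a i / gcdI a) • wt i)
        (gcdI_sum a wt hw))) ?_ ?_ ?_ I
  · intro α β' instβ e ih hne Y hY wh h a ha wt hw
    let _ : Fintype α := Fintype.ofEquiv β' e.symm
    have hw' : wh + ∑ i, a (e i) • wt (e i) = 0 := by
      rw [← hw]
      congr 1
      exact Equiv.sum_comp e fun i => a i • wt i
    rw [χ.iso (TT_FT hY _ _ _ _) (TT_equiv h e a wt hw hw'),
      ih (Nonempty.map e.symm hne) Y hY wh h (fun i => a (e i)) (fun i => ha _)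
        (fun i => wt (e i)) hw', Fintype.card_congr e]
    congr 1
    refine TT_congr χ h (funext fun _ => gcdI_equiv e a) (funext fun _ => ?_) _ _
    rw [gcdI_equiv e a]
    exact Equiv.sum_comp e fun i => (a i / gcdI a) • wt i
  · intro hne
    exact hne.elim fun x => x.elim
  · intro α instα ih _ Y hY wh h a ha wt hw
    have hw1 : (wh + a none • wt none) + ∑ i : α, a (some i) • wt (some i) = 0 := by
      rw [add_assoc, ← Fintype.sum_option fun i => a i • wt i]
      exact hw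
    rcases isEmpty_or_nonempty α with hα | hα
    · have hg : gcdI a = a none := by
        rw [gcdI_option]
        have h1 : gcdI (fun i : α => a (some i)) = 0 := by
          rw [gcdI, Finset.univ_eq_empty, Finset.gcd_empty]
        rw [h1, Nat.gcd_zero_right]
      let e : Unit ≃ Option α :=
        { toFun := fun _ => none
          invFun := fun _ => ()
          left_inv := fun _ => rfl
          right_inv := fun o => by
            cases o with
            | none => rfl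
            | some i => exact (hα.false i).elim }
      have hw' : wh + ∑ i, a (e i) • wt (e i) = 0 := by
        rw [← hw]
        congr 1
        exact Equiv.sum_comp e fun i => a i • wt i
      rw [χ.iso (TT_FT hY _ _ _ _) (TT_equiv h e a wt hw hw'), Fintype.card_option,
        Fintype.card_eq_zero, Nat.zero_add, Nat.sub_self, pow_zero, one_mul]
      refine TT_congr χ h (funext fun _ => hg.symm) (funext fun _ => ?_) _ _
      show wt none = _
      rw [hg, Fintype.sum_option, Finset.univ_eq_empty, Finset.sum_empty, add_zero,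
        Nat.div_self (ha none), one_smul]
    · rw [χ.iso (TT_FT hY _ _ _ _) (TT_option h a wt hw hw1),
        ih hα (Y.times (GF.line k (wt none))) (hY.prod (FT.line _)) _ (hmul h (wt none) (a none))
          (fun i => a (some i)) (fun i => ha _) (fun i => wt (some i)) hw1]
      set b := gcdI fun i : α => a (some i) with hb
      set g := gcdI a with hgdef
      have hga : g = Nat.gcd (a none) b := gcdI_option a
      have hbpos : 0 < b := gcdI_pos _ fun i => ha _
      have hgpos : 0 < g := gcdI_pos _ ha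
      have hA : a none / g * g = a none := Nat.div_mul_cancel (by rw [hga]; exact Nat.gcd_dvd_left _ _)
      have hB : b / g * g = b := Nat.div_mul_cancel (by rw [hga]; exact Nat.gcd_dvd_right _ _)
      have hApos : 0 < a none / g := by
        rcases Nat.eq_zero_or_pos (a none / g) with h0 | h0
        · rw [h0, zero_mul] at hA
          have := ha none
          omega
        · exact h0
      have hBpos : 0 < b / g := by
        rcases Nat.eq_zero_or_pos (b / g) with h0 | h0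
        · rw [h0, zero_mul] at hB
          omega
        · exact h0
      have hco : Nat.Coprime (a none / g) (b / g) := by
        rw [hga]
        exact Nat.coprime_div_gcd_div_gcd (by rw [← hga]; exact hgpos)
      have hsum : (a none / g) • wt none + (b / g) • ∑ i : α, (a (some i) / b) • wt (some i)
          = ∑ i, (a i / g) • wt i := by
        rw [Fintype.sum_option, Finset.smul_sum]
        congr 1
        refine Finset.sum_congr rfl fun i _ => ?_
        rw [smul_smul]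
        congr 1
        have h1 : b ∣ a (some i) :=
          Finset.gcd_dvd (s := univ) (f := fun i : α => a (some i)) (mem_univ i)
        obtain ⟨m, hm⟩ := h1
        rw [hm, Nat.mul_div_cancel_left _ hbpos]
        conv_rhs => rw [← hB, mul_assoc, mul_comm g m, ← mul_assoc, Nat.mul_div_cancel _ hgpos]
      have hw2 : wh + ∑ i : Unit, g • ((a none / g) • wt none
          + (b / g) • ∑ i : α, (a (some i) / b) • wt (some i)) = 0 := by
        rw [hsum]
        exact gcdI_sum a wt hw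
      rw [two χ hY h hA.symm hB.symm hApos hBpos hgpos hco _ hw2, ← mul_assoc, ← pow_succ,
        Fintype.card_option]
      have hcard : Fintype.card α - 1 + 1 = Fintype.card α + 1 - 1 := by
        have := Fintype.card_pos (α := α)
        omega
      rw [hcard]
      congr 1
      exact TT_congr χ h rfl (funext fun _ => hsum) _ _

end final

theorem tor : TorStmt := by
  intro k _ β wβ R _ L χ Y hY wh h I _ hne a ha wt hw
  exact tor_aux χ I hne Y hY wh h a ha wt hw

end Pool.Agent.Helper32_OMP.H37
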