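import Pool.Agent.Helper32_OMP.StmtB

/-!
# Module POLE: reduction of the pole order to a linear vector field
-/

set_option autoImplicit false
set_option linter.unusedVariables false
set_option linter.unusedSectionVars false

namespace Pool.Agent.Helper32_OMP.H37P

open MvPolynomial Finset Pool.Agent.Helper6_Mono Pool.Agent.Helper32_OMP

section basic

variable {σ : Type}

theorem pderiv_comm' (l l' : σ) (f : MvPolynomial σ ℂ) :
    pderiv l (pderiv l' f) = pderiv l' (pderiv l f) := by
  classical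
  induction f using MvPolynomial.induction_on with
  | C a => simp
  | add p q hp hq => rw [map_add, map_add, map_add, map_add, hp, hq]
  | mul_X p i hp =>
    have h0 : ∀ (j j' : σ), pderiv j (pderiv j' (X i : MvPolynomial σ ℂ)) = 0 := by
      intro j j'
      rw [pderiv_X]
      by_cases h : j' = i
      · subst h; rw [Pi.single_eq_same]; exact pderiv_one
      · rw [Pi.single_eq_of_ne (Ne.symm h)]; simp
    simp only [Derivation.leibniz, map_add, smul_eq_mul, h0, hp]
    ring

attribute [local instance] MvPolynomial.gradedAlgebra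

theorem hc_mul {a : MvPolynomial σ ℂ} {p : ℕ} (ha : a.IsHomogeneous p) (q : ℕ)
    (b : MvPolynomial σ ℂ) :
    homogeneousComponent (p + q) (a * b) = a * homogeneousComponent q b := by
  have h := DirectSum.coe_decompose_mul_add_of_left_mem (homogeneousSubmodule σ ℂ) (i := p)
    (j := q) (a := a) (b := b) ha
  have h1 : ∀ (c : MvPolynomial σ ℂ) (n : ℕ),
      ((DirectSum.decompose (homogeneousSubmodule σ ℂ) c n : homogeneousSubmodule σ ℂ n) :
        MvPolynomial σ ℂ) = homogeneousComponent n c := fun c n =>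
    decomposition.decompose'_apply c n
  rw [h1, h1] at h
  exact h

theorem pd_mul (l : σ) (f g : MvPolynomial σ ℂ) :
    pderiv l (f * g) = pderiv l f * g + f * pderiv l g := by
  rw [Derivation.leibniz, smul_eq_mul, smul_eq_mul]
  ring

theorem pd_C_mul (l : σ) (c : ℂ) (g : MvPolynomial σ ℂ) :
    pderiv l (C c * g) = C c * pderiv l g := by
  rw [pd_mul, pderiv_C, zero_mul, zero_add]

end basic

section ops

variable {σ ι : Type} [Fintype σ] [Fintype ι] (g : ι → MvPolynomial σ ℂ) (c : ι → ℂ)

open scoped Classical in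
/-- the product of the other polynomials -/
noncomputable def gh (i : ι) : MvPolynomial σ ℂ := ∏ j ∈ univ.erase i, g j

theorem g_gh (i : ι) : g i * gh g i = ∏ j, g j := by
  classical
  exact Finset.mul_prod_erase univ g (mem_univ i)

/-- the form `G ∑ c_i dg_i / g_i` -/
noncomputable def Om (l : σ) : MvPolynomial σ ℂ := ∑ i, C (c i) * pderiv l (g i) * gh g i

/-- the twisted divergence, multiplied by `G = ∏ g_i` -/
noncomputable def TD (H : σ → MvPolynomial σ ℂ) : MvPolynomial σ ℂ :=
  (∏ j, g j) * dv H + ∑ i, C (c i) * ap H (g i) * gh g i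

theorem TD_eq (H : σ → MvPolynomial σ ℂ) :
    TD g c H = (∏ j, g j) * dv H + ∑ l, H l * Om g c l := by
  unfold TD Om ap
  congr 1
  simp only [Finset.mul_sum, Finset.sum_mul]
  rw [Finset.sum_comm]
  refine Finset.sum_congr rfl fun l _ => Finset.sum_congr rfl fun i _ => ?_
  ring

theorem TD_add (H H' : σ → MvPolynomial σ ℂ) :
    TD g c (fun l => H l + H' l) = TD g c H + TD g c H' := by
  simp only [TD_eq, dv, map_add, Finset.sum_add_distrib, add_mul]
  ring

theorem TD_C_mul (a : ℂ) (H : σ → MvPolynomial σ ℂ) :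
    TD g c (fun l => C a * H l) = C a * TD g c H := by
  simp only [TD_eq, dv, pd_C_mul, ← Finset.mul_sum, mul_assoc]
  ring

theorem curl (l l' : σ) :
    (∏ j, g j) * pderiv l (Om g c l') - pderiv l (∏ j, g j) * Om g c l'
      = ∑ i, C (c i) * ((∏ j, g j) * gh g i * pderiv l (pderiv l' (g i))
        - gh g i ^ 2 * (pderiv l (g i) * pderiv l' (g i))) := by
  unfold Om
  rw [map_sum, Finset.mul_sum, Finset.mul_sum, ← Finset.sum_sub_distrib]
  refine Finset.sum_congr rfl fun i _ => ?_
  have h1 : pderiv l (∏ j, g j) = pderiv l (g i) * gh g i + g i * pderiv l (gh g i) := by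
    rw [← g_gh g i, pd_mul]
  rw [mul_assoc, pd_C_mul, pd_mul, h1, ← g_gh g i]
  ring

theorem curl_symm (l l' : σ) :
    (∏ j, g j) * pderiv l (Om g c l') - pderiv l (∏ j, g j) * Om g c l'
      = (∏ j, g j) * pderiv l' (Om g c l) - pderiv l' (∏ j, g j) * Om g c l := by
  rw [curl, curl]
  refine Finset.sum_congr rfl fun i _ => ?_
  rw [pderiv_comm' l l']
  ring

/-- the twisted boundary has square zero -/
theorem TD_curl (U : σ → σ → MvPolynomial σ ℂ) (hU : ∀ l l', U l l' = - U l' l)
    (V : σ → MvPolynomial σ ℂ)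
    (hV : ∀ l, (∏ j, g j) * V l
      = ∑ l', ((∏ j, g j) * pderiv l' (U l' l) + Om g c l' * U l' l))
    (hG : (∏ j, g j) ≠ 0) : TD g c V = 0 := by
  set G := ∏ j, g j with hGdef
  have h1 : G * TD g c V = ∑ l, ∑ l', (G * pderiv l (G * pderiv l' (U l' l) + Om g c l' * U l' l)
      - pderiv l G * (G * pderiv l' (U l' l) + Om g c l' * U l' l)
      + Om g c l * (G * pderiv l' (U l' l) + Om g c l' * U l' l)) := by
    rw [TD_eq, mul_add, dv, Finset.mul_sum, Finset.mul_sum, Finset.mul_sum,
      ← Finset.sum_add_distrib]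
    refine Finset.sum_congr rfl fun l _ => ?_
    have h2 : G * pderiv l (V l) = pderiv l (G * V l) - pderiv l G * V l := by
      rw [pd_mul]; ring
    have h3 : ∑ l', (G * pderiv l (G * pderiv l' (U l' l) + Om g c l' * U l' l)
      - pderiv l G * (G * pderiv l' (U l' l) + Om g c l' * U l' l)
      + Om g c l * (G * pderiv l' (U l' l) + Om g c l' * U l' l))
      = G * pderiv l (G * V l) - pderiv l G * (G * V l) + Om g c l * (G * V l) := by
      rw [hV l, map_sum, Finset.mul_sum, Finset.mul_sum, Finset.mul_sum,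
        ← Finset.sum_sub_distrib, ← Finset.sum_add_distrib]
    rw [h3]
    show G * (G * pderiv l (V l)) + G * (V l * Om g c l) = _
    rw [h2]
    ring
  let F : σ → σ → MvPolynomial σ ℂ := fun l l' =>
    (G * pderiv l (G * pderiv l' (U l' l) + Om g c l' * U l' l)
      - pderiv l G * (G * pderiv l' (U l' l) + Om g c l' * U l' l)
      + Om g c l * (G * pderiv l' (U l' l) + Om g c l' * U l' l))
  have hF : ∀ l l', F l l' + F l' l = 0 := by
    intro l l'
    have e1 := curl_symm g c l l'
    rw [← hGdef] at e1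
    have e2 : pderiv l (U l l') = - pderiv l (U l' l) := by rw [hU l l', map_neg]
    have e3 : pderiv l' (pderiv l (U l l')) = - pderiv l (pderiv l' (U l' l)) := by
      rw [hU l l', map_neg, map_neg, pderiv_comm' l' l]
    have e4 : pderiv l' (U l l') = - pderiv l' (U l' l) := by rw [hU l l', map_neg]
    have e5 : U l l' = - U l' l := hU l l'
    show (G * pderiv l (G * pderiv l' (U l' l) + Om g c l' * U l' l)
      - pderiv l G * (G * pderiv l' (U l' l) + Om g c l' * U l' l)
      + Om g c l * (G * pderiv l' (U l' l) + Om g c l' * U l' l))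
      + (G * pderiv l' (G * pderiv l (U l l') + Om g c l * U l l')
      - pderiv l' G * (G * pderiv l (U l l') + Om g c l * U l l')
      + Om g c l' * (G * pderiv l (U l l') + Om g c l * U l l')) = 0
    rw [map_add, map_add, pd_mul l G, pd_mul l (Om g c l'), pd_mul l' G, pd_mul l' (Om g c l),
      e3, e2, e4, e5]
    linear_combination (U l' l) * e1
  have h4 : G * TD g c V = ∑ l, ∑ l', F l l' := h1
  have h5 : G * TD g c V = ∑ l, ∑ l', F l' l := by rw [h4, Finset.sum_comm]
  have h6 : G * TD g c V + G * TD g c V = 0 := by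
    nth_rewrite 1 [h4]
    rw [h5, ← Finset.sum_add_distrib]
    refine Finset.sum_eq_zero fun l _ => ?_
    rw [← Finset.sum_add_distrib]
    exact Finset.sum_eq_zero fun l' _ => hF l l'
  have h7 : G * TD g c V = 0 := by
    have h8 : (2 : MvPolynomial σ ℂ) * (G * TD g c V) = 0 := by rw [two_mul]; exact h6
    rcases mul_eq_zero.1 h8 with h | h
    · exact absurd h two_ne_zero
    · exact h
  exact (mul_eq_zero.1 h7).resolve_left hG

theorem TD_g_mul (i0 : ι) (c' : ι → ℂ) (hc0 : c' i0 = c i0 + 1) (hc : ∀ i, i ≠ i0 → c' i = c i)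
    (Y : σ → MvPolynomial σ ℂ) : TD g c (fun l => g i0 * Y l) = g i0 * TD g c' Y := by
  classical
  have h1 : dv (fun l => g i0 * Y l) = ap Y (g i0) + g i0 * dv Y := by
    simp only [dv, ap, pd_mul, Finset.sum_add_distrib, Finset.mul_sum]
    congr 1
    exact Finset.sum_congr rfl fun l _ => mul_comm _ _
  have h2 : ∀ i, ap (fun l => g i0 * Y l) (g i) = g i0 * ap Y (g i) := by
    intro i
    simp only [ap, Finset.mul_sum]
    exact Finset.sum_congr rfl fun l _ => by ring
  have h3 : ∑ i, C (c' i) * ap Y (g i) * gh g i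
      = ∑ i, C (c i) * ap Y (g i) * gh g i + ap Y (g i0) * gh g i0 := by
    rw [← Finset.add_sum_erase univ _ (mem_univ i0),
      ← Finset.add_sum_erase univ (fun i => C (c i) * ap Y (g i) * gh g i) (mem_univ i0), hc0,
      map_add, map_one]
    have h4 : ∑ i ∈ univ.erase i0, C (c' i) * ap Y (g i) * gh g i
        = ∑ i ∈ univ.erase i0, C (c i) * ap Y (g i) * gh g i :=
      Finset.sum_congr rfl fun i hi => by rw [hc i (Finset.ne_of_mem_erase hi)]
    rw [h4]
    ring
  have h5 : ∑ i, C (c i) * (g i0 * ap Y (g i)) * gh g i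
      = g i0 * ∑ i, C (c i) * ap Y (g i) * gh g i := by
    rw [Finset.mul_sum]
    exact Finset.sum_congr rfl fun i _ => by ring
  unfold TD
  rw [h1, h3]
  simp only [h2]
  rw [h5, ← g_gh g i0]
  ring

theorem TD_euler {d : ι → ℕ} (hg : ∀ i, (g i).IsHomogeneous (d i)) {s : ℕ} {φ : MvPolynomial σ ℂ}
    (hφ : φ.IsHomogeneous s) (hc : ∑ i, c i * d i = -(Fintype.card σ : ℂ) - s) :
    TD g c (fun l => φ * X l) = 0 := by
  have h1 : dv (fun l => φ * X l) = ((s : MvPolynomial σ ℂ) + (Fintype.card σ : MvPolynomial σ ℂ)) * φ := by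
    have h2 : ∀ l, pderiv l (φ * X l) = X l * pderiv l φ + φ := by
      intro l
      rw [pd_mul, pderiv_X_self]
      ring
    unfold dv
    rw [Finset.sum_congr rfl fun l _ => h2 l, Finset.sum_add_distrib, hφ.sum_X_mul_pderiv,
      Finset.sum_const, Finset.card_univ, nsmul_eq_mul, nsmul_eq_mul]
    ring
  have h3 : ∀ i, ap (fun l => φ * X l) (g i) = φ * ((d i : MvPolynomial σ ℂ) * g i) := by
    intro i
    have h4 : ap (fun l => φ * X l) (g i) = φ * ∑ l, X l * pderiv l (g i) := by
      unfold ap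
      rw [Finset.mul_sum]
      exact Finset.sum_congr rfl fun l _ => by ring
    rw [h4, (hg i).sum_X_mul_pderiv, nsmul_eq_mul]
  have h5 : ∑ i, C (c i) * ap (fun l => φ * X l) (g i) * gh g i
      = (∏ j, g j) * φ * C (∑ i, c i * d i) := by
    rw [map_sum, Finset.mul_sum]
    refine Finset.sum_congr rfl fun i _ => ?_
    rw [h3 i, ← g_gh g i, map_mul, map_natCast]
    ring
  unfold TD
  rw [h1, h5, hc, map_sub, map_neg, map_natCast, map_natCast]
  ring

end ops

section main

variable {σ ι : Type} [Fintype σ] [Fintype ι]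

theorem TEq_iff (g : ι → MvPolynomial σ ℂ) (a : ι → ℕ) (β : ℂ) (m : ι → ℕ)
    (H : σ → MvPolynomial σ ℂ) :
    TEq g a β m H ↔ TD g (fun i => β * a i - m i) H = (∏ i, g i) * ∏ i, g i ^ m i := Iff.rfl

theorem step (hStar : StarStmt) (hCop : CopStmt) (hn : 2 ≤ Fintype.card σ)
    (g : ι → MvPolynomial σ ℂ) (d : ι → ℕ) (hg : IsOrd g d) (a : ι → ℕ) (ha : ∀ i, 0 < a i) (β : ℂ)
    (hβ : β * (∑ i, a i * d i : ℕ) = -(Fintype.card σ : ℂ)) (m m' : ι → ℕ) (i0 : ι)
    (hm : m i0 = m' i0 + 1) (hm' : ∀ i, i ≠ i0 → m i = m' i)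
    (H : σ → MvPolynomial σ ℂ) (hH : ∀ l, (H l).IsHomogeneous (1 + ∑ i, m i * d i))
    (hT : TEq g a β m H) :
    ∃ H'' : σ → MvPolynomial σ ℂ, (∀ l, (H'' l).IsHomogeneous (1 + ∑ i, m' i * d i)) ∧
      TEq g a β m' H'' := by
  classical
  obtain ⟨hg0, hcop⟩ := hCop σ ι hn g d hg
  rw [TEq_iff] at hT
  set c : ι → ℂ := fun i => β * a i - m i with hcdef
  set D : ℕ := ∑ i, a i * d i with hDdef
  set n : ℕ := Fintype.card σ with hndef
  have hD0 : (D : ℂ) ≠ 0 := by
    intro h
    rw [h, mul_zero] at hβ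
    have h1 : (n : ℂ) = 0 := neg_eq_zero.1 hβ.symm
    have h2 : n = 0 := by exact_mod_cast h1
    omega
  have hc : ∀ i, c i ≠ 0 := by
    intro i h
    have h1 : (β * a i - m i) * D = 0 := by
      have : β * a i - m i = 0 := h
      rw [this, zero_mul]
    have h2 : ((n * a i + m i * D : ℕ) : ℂ) = 0 := by
      push_cast
      linear_combination (-1 : ℂ) * h1 + (a i : ℂ) * hβ
    have h3 : n * a i + m i * D = 0 := by exact_mod_cast h2
    have h4 : 0 < n * a i := Nat.mul_pos (by omega) (ha i)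
    omega
  have hc1 : 1 + c i0 ≠ 0 := by
    intro h
    have h1 : (1 + (β * a i0 - m i0)) * D = 0 := by
      have : 1 + (β * a i0 - m i0) = 0 := h
      rw [this, zero_mul]
    have h2 : ((n * a i0 + m' i0 * D : ℕ) : ℂ) = 0 := by
      push_cast
      rw [hm] at h1
      push_cast at h1
      linear_combination (-1 : ℂ) * h1 + (a i0 : ℂ) * hβ
    have h3 : n * a i0 + m' i0 * D = 0 := by exact_mod_cast h2
    have h4 : 0 < n * a i0 := Nat.mul_pos (by omega) (ha i0)
    omega
  have hG : (∏ j, g j) ≠ 0 := Finset.prod_ne_zero_iff.2 fun i _ => hg0 i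
  -- the vector field is logarithmic
  have hlog : ∀ i, g i ∣ ap H (g i) := by
    intro i
    have h1 : C (c i) * ap H (g i) * gh g i = (∏ j, g j) * (∏ j, g j ^ m j) - (∏ j, g j) * dv H
        - ∑ j ∈ univ.erase i, C (c j) * ap H (g j) * gh g j := by
      rw [← hT, TD, ← Finset.add_sum_erase univ _ (mem_univ i)]
      ring
    have h2 : g i ∣ ∏ j, g j := Finset.dvd_prod_of_mem g (mem_univ i)
    have h3 : g i ∣ C (c i) * ap H (g i) * gh g i := by
      rw [h1]
      refine dvd_sub (dvd_sub (h2.mul_right _) (h2.mul_right _)) (Finset.dvd_sum fun j hj => ?_)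
      refine Dvd.dvd.mul_left ?_ _
      exact Finset.dvd_prod_of_mem g (Finset.mem_erase.2 ⟨(Finset.ne_of_mem_erase hj).symm, mem_univ i⟩)
    have h4 : IsRelPrime (g i) (gh g i) :=
      IsRelPrime.prod_right fun j hj => hcop i j (Finset.ne_of_mem_erase hj).symm
    have h5 : g i ∣ C (c i) * ap H (g i) := h4.dvd_of_dvd_mul_right h3
    have h6 : ap H (g i) = C (c i)⁻¹ * (C (c i) * ap H (g i)) := by
      rw [← mul_assoc, ← map_mul, inv_mul_cancel₀ (hc i), map_one, one_mul]
    rw [h6]
    exact h5.mul_left _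
  obtain ⟨φ, W, hW, hHW, hQ0⟩ := hStar σ ι g d hg i0 H hlog
  have hQ1 : ∀ i l, ∃ q, i ≠ i0 → ∑ l', pderiv l' (g i) * W l' l = g i * q := by
    intro i l
    by_cases h : i = i0
    · exact ⟨0, fun h' => absurd h h'⟩
    · obtain ⟨q, hq⟩ := hQ0 i h l
      exact ⟨q, fun _ => hq⟩
  choose Q hQ using hQ1
  -- degrees
  set s : ℕ := ∑ i, m i * d i with hsdef
  have hs : s = d i0 + ∑ i, m' i * d i := by
    rw [hsdef, ← Finset.add_sum_erase univ _ (mem_univ i0),
      ← Finset.add_sum_erase univ (fun i => m' i * d i) (mem_univ i0), hm]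
    have h1 : ∑ i ∈ univ.erase i0, m i * d i = ∑ i ∈ univ.erase i0, m' i * d i :=
      Finset.sum_congr rfl fun i hi => by rw [hm' i (Finset.ne_of_mem_erase hi)]
    rw [h1]
    ring
  set e : ℕ := ∑ i, m' i * d i with hedef
  have hd0 : 0 < d i0 := hg.pos i0
  let φ' := homogeneousComponent s φ
  let W' : σ → σ → MvPolynomial σ ℂ := fun l l' => homogeneousComponent (2 + e) (W l l')
  let Q' : ι → σ → MvPolynomial σ ℂ := fun i l => homogeneousComponent (1 + e) (Q i l)
  let H' : σ → MvPolynomial σ ℂ := fun l => ∑ l', pderiv l' (g i0) * W' l' l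
  have hφ' : φ'.IsHomogeneous s := homogeneousComponent_isHomogeneous _ _
  have hW' : ∀ l l', W' l l' = - W' l' l := by
    intro l l'
    show homogeneousComponent (2 + e) (W l l') = - homogeneousComponent (2 + e) (W l' l)
    rw [hW l l', map_neg]
  have hHH' : ∀ l, H l = φ' * X l + H' l := by
    intro l
    have h1 : homogeneousComponent (1 + s) (H l) = H l := homogeneousComponent_eq_self (hH l)
    rw [← h1, hHW l, map_add, map_sum]
    congr 1
    · rw [mul_comm φ (X l), hc_mul (isHomogeneous_X ℂ l) s φ, mul_comm]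
    · refine Finset.sum_congr rfl fun l' _ => ?_
      have h2 : 1 + s = (d i0 - 1) + (2 + e) := by omega
      rw [h2, hc_mul ((hg.hom i0).pderiv) (2 + e)]
  have hQ' : ∀ i, i ≠ i0 → ∀ l, ∑ l', pderiv l' (g i) * W' l' l = g i * Q' i l := by
    intro i hi l
    have hdi : 0 < d i := hg.pos i
    have h1 := congrArg (homogeneousComponent (d i + (1 + e))) (hQ i l hi)
    rw [hc_mul (hg.hom i) (1 + e), map_sum] at h1
    rw [← h1]
    refine Finset.sum_congr rfl fun l' _ => ?_
    have h2 : d i + (1 + e) = (d i - 1) + (2 + e) := by omega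
    rw [h2, hc_mul ((hg.hom i).pderiv) (2 + e)]
  have hTH' : TD g c H' = (∏ i, g i) * ∏ i, g i ^ m i := by
    have h1 : TD g c H = TD g c (fun l => φ' * X l) + TD g c H' := by
      rw [← TD_add]
      congr 1
      funext l
      exact hHH' l
    have h2 : TD g c (fun l => φ' * X l) = 0 := by
      refine TD_euler g c hg.hom hφ' ?_
      have h3 : ∑ i, c i * (d i : ℂ) = β * (D : ℂ) - s := by
        rw [hDdef, hsdef]
        push_cast
        rw [Finset.mul_sum, ← Finset.sum_sub_distrib]
        exact Finset.sum_congr rfl fun i _ => by rw [hcdef]; ring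
      rw [h3, hβ]
    rw [← hT, h1, h2, zero_add]
  let Y : σ → MvPolynomial σ ℂ := fun l =>
    ∑ l', pderiv l' (W' l' l) + ∑ i ∈ univ.erase i0, C (c i) * Q' i l
  have hV : TD g c (fun l => C (1 + c i0) * H' l + g i0 * Y l) = 0 := by
    refine TD_curl g c (fun l' l => g i0 * W' l' l) (fun l l' => ?_) _ (fun l => ?_) hG
    · rw [hW' l l']; ring
    · have h1 : ∑ l', Om g c l' * (g i0 * W' l' l)
          = (∏ j, g j) * (C (c i0) * H' l) + (∏ j, g j) * (g i0 * ∑ i ∈ univ.erase i0, C (c i) * Q' i l) := by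
        have h2 : ∑ l', Om g c l' * (g i0 * W' l' l)
            = ∑ i, C (c i) * gh g i * g i0 * ∑ l', pderiv l' (g i) * W' l' l := by
          unfold Om
          simp only [Finset.sum_mul, Finset.mul_sum]
          rw [Finset.sum_comm]
          refine Finset.sum_congr rfl fun i _ => Finset.sum_congr rfl fun l' _ => ?_
          ring
        rw [h2, ← Finset.add_sum_erase univ _ (mem_univ i0)]
        congr 1
        · rw [← g_gh g i0]
          ring
        · rw [Finset.mul_sum, Finset.mul_sum]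
          refine Finset.sum_congr rfl fun i hi => ?_
          rw [hQ' i (Finset.ne_of_mem_erase hi) l, ← g_gh g i]
          ring
      have h3 : ∑ l', (∏ j, g j) * pderiv l' (g i0 * W' l' l)
          = (∏ j, g j) * H' l + (∏ j, g j) * (g i0 * ∑ l', pderiv l' (W' l' l)) := by
        rw [Finset.mul_sum, Finset.mul_sum, Finset.mul_sum, ← Finset.sum_add_distrib]
        refine Finset.sum_congr rfl fun l' _ => ?_
        rw [pd_mul]
        ring
      rw [Finset.sum_add_distrib, h1, h3, map_add, map_one]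
      show (∏ j, g j) * ((1 + C (c i0)) * H' l + g i0 *
        (∑ l', pderiv l' (W' l' l) + ∑ i ∈ univ.erase i0, C (c i) * Q' i l)) = _
      ring
  let c' : ι → ℂ := fun i => β * a i - m' i
  have hc'0 : c' i0 = c i0 + 1 := by
    show β * a i0 - m' i0 = β * a i0 - m i0 + 1
    rw [hm]
    push_cast
    ring
  have hc' : ∀ i, i ≠ i0 → c' i = c i := by
    intro i hi
    show β * a i - m' i = β * a i - m i
    rw [hm' i hi]
  have hsum : C (1 + c i0) * ((∏ i, g i) * ∏ i, g i ^ m i) + g i0 * TD g c' Y = 0 := by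
    rw [← hTH', ← TD_C_mul, ← TD_g_mul g c i0 c' hc'0 hc', ← TD_add]
    exact hV
  refine ⟨fun l => C (-(1 + c i0)⁻¹) * Y l, fun l => ?_, ?_⟩
  · have h1 : (Y l).IsHomogeneous (1 + e) := by
      refine IsHomogeneous.add (IsHomogeneous.sum _ _ _ fun l' _ => ?_)
        (IsHomogeneous.sum _ _ _ fun i _ => ?_)
      · have h2 : (W' l' l).IsHomogeneous (2 + e) := homogeneousComponent_isHomogeneous _ _
        have h3 := h2.pderiv (i := l')
        rwa [show 2 + e - 1 = 1 + e by omega] at h3
      · have h2 : (Q' i l).IsHomogeneous (1 + e) := homogeneousComponent_isHomogeneous _ _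
        have h3 := (isHomogeneous_C σ (c i)).mul h2
        rwa [zero_add] at h3
    have h4 := (isHomogeneous_C σ (-(1 + c i0)⁻¹)).mul h1
    rwa [zero_add] at h4
  · rw [TEq_iff]
    show TD g c' (fun l => C (-(1 + c i0)⁻¹) * Y l) = _
    rw [TD_C_mul]
    apply mul_left_cancel₀ (hg0 i0)
    have h1 : g i0 * (C (-(1 + c i0)⁻¹) * TD g c' Y)
        = C (-(1 + c i0)⁻¹) * (g i0 * TD g c' Y) := by ring
    have h2 : g i0 * TD g c' Y = -(C (1 + c i0) * ((∏ i, g i) * ∏ i, g i ^ m i)) := by
      linear_combination hsum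
    have h3 : C (-(1 + c i0)⁻¹) * C (1 + c i0) = (-1 : MvPolynomial σ ℂ) := by
      rw [← map_mul, neg_mul, inv_mul_cancel₀ hc1, map_neg, map_one]
    have h4 : ∏ i, g i ^ m i = g i0 * ∏ i, g i ^ m' i := by
      rw [← Finset.mul_prod_erase univ _ (mem_univ i0),
        ← Finset.mul_prod_erase univ (fun i => g i ^ m' i) (mem_univ i0), hm, pow_succ]
      have h5 : ∏ i ∈ univ.erase i0, g i ^ m i = ∏ i ∈ univ.erase i0, g i ^ m' i :=
        Finset.prod_congr rfl fun i hi => by rw [hm' i (Finset.ne_of_mem_erase hi)]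
      rw [h5]
      ring
    rw [h1, h2, h4]
    linear_combination (-((∏ i, g i) * (g i0 * ∏ i, g i ^ m' i))) * h3

end main

theorem pole (hStar : StarStmt) (hCop : CopStmt) : PoleStmt := by
  intro σ ι _ _ hn g d hg a ha β hβ m H hH hT
  classical
  suffices h : ∀ (N : ℕ) (m : ι → ℕ), ∑ i, m i = N → ∀ (H : σ → MvPolynomial σ ℂ),
      (∀ l, (H l).IsHomogeneous (1 + ∑ i, m i * d i)) → TEq g a β m H →
      ∃ H' : σ → MvPolynomial σ ℂ, (∀ l, (H' l).IsHomogeneous 1) ∧ TEq g a β 0 H' from
    h _ m rfl H hH hT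
  intro N
  induction N with
  | zero =>
    intro m hm H hH hT
    have h0 : m = 0 := by
      funext i
      exact (Finset.sum_eq_zero_iff.1 hm) i (mem_univ i)
    subst h0
    refine ⟨H, fun l => ?_, hT⟩
    have := hH l
    simpa using this
  | succ N ih =>
    intro m hm H hH hT
    obtain ⟨i0, hi0⟩ : ∃ i0, 0 < m i0 := by
      by_contra hcon
      push Not at hcon
      have : ∑ i, m i = 0 := Finset.sum_eq_zero fun i _ => Nat.le_zero.1 (hcon i)
      omega
    let m' : ι → ℕ := Function.update m i0 (m i0 - 1)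
    have h1 : m i0 = m' i0 + 1 := by
      show m i0 = Function.update m i0 (m i0 - 1) i0 + 1
      rw [Function.update_self]
      omega
    have h2 : ∀ i, i ≠ i0 → m i = m' i := fun i hi => by
      show m i = Function.update m i0 (m i0 - 1) i
      rw [Function.update_of_ne hi]
    obtain ⟨H'', hH'', hT''⟩ := step hStar hCop hn g d hg a ha β hβ m m' i0 h1 h2 H hH hT
    refine ih m' ?_ H'' hH'' hT''
    have h3 : ∑ i, m i = ∑ i, m' i + 1 := by
      rw [← Finset.add_sum_erase univ _ (mem_univ i0), ← Finset.add_sum_erase univ m' (mem_univ i0),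
        h1, Finset.sum_congr rfl fun i hi => h2 i (Finset.ne_of_mem_erase hi)]
      ring
    omega

end Pool.Agent.Helper32_OMP.H37P
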